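import Pool.Agent.Helper66.ML.Defs

/-!
The codes determine the branches up to the order of the children.
-/

namespace Pool.Agent.Helper66.ML

open Pool.Agent.Helper66
open Pool.Agent.Helper66.IL

theorem code_e : code .e = 0 := rfl

theorem code_n (m : Bool) (x y : MB) : code (.n m x y) = mkc m (code x) (code y) := rfl

theorem ln_eq (a : ℕ) : ln a = Nat.log2 a + 1 := rfl

theorem lt_ln (a : ℕ) : a < 2 ^ ln a := Nat.lt_log2_self

theorem pc_eq (h a b : ℕ) : pc h a b = (h * 2 ^ ln a + a) * 2 ^ ln b + b := by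
  show (h <<< ln a + a) <<< ln b + b = _
  rw [Nat.shiftLeft_eq, Nat.shiftLeft_eq]

theorem pc_eq' (h a b : ℕ) : pc h a b = h * 2 ^ (ln a + ln b) + (a * 2 ^ ln b + b) := by
  rw [pc_eq, pow_add]; ring

theorem tail_lt (a b : ℕ) : a * 2 ^ ln b + b < 2 ^ (ln a + ln b) := by
  have h1 := lt_ln a
  have h2 := lt_ln b
  rw [pow_add]
  nlinarith [Nat.zero_le (2 ^ ln b)]

theorem hd_two (m : Bool) : 2 ≤ hd m := by cases m <;> simp [hd]

theorem hd_lt (m : Bool) : hd m < 4 := by cases m <;> simp [hd]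

theorem hd_inj {m m' : Bool} (h : hd m = hd m') : m = m' := by
  cases m <;> cases m' <;> simp [hd] at h ⊢

theorem ln_pc (m : Bool) (a b : ℕ) : ln (pc (hd m) a b) = ln a + ln b + 2 := by
  have h1 := tail_lt a b
  have h2 := hd_two m
  have h3 := hd_lt m
  have e := pc_eq' (hd m) a b
  set T := a * 2 ^ ln b + b with hT
  have hp : 0 < 2 ^ (ln a + ln b) := by positivity
  have hne : pc (hd m) a b ≠ 0 := by
    rw [e]; positivity
  rw [ln_eq (pc (hd m) a b)]
  have : (pc (hd m) a b).log2 = ln a + ln b + 1 := by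
    rw [Nat.log2_eq_iff hne, e]
    constructor
    · rw [pow_succ]; nlinarith
    · rw [pow_succ, pow_succ]; nlinarith
  rw [this]

theorem mkc_cases (m : Bool) (a b : ℕ) : ∃ m', (m' = m ∨ (a = 0 ∧ b = 0)) ∧
    (mkc m a b = pc (hd m') a b ∨ mkc m a b = pc (hd m') b a) := by
  unfold mkc
  cases h : Nat.ble a b with
  | true =>
    cases h' : Nat.beq b 0 with
    | true =>
      have hb := Nat.eq_of_beq_eq_true h'
      have ha := Nat.le_of_ble_eq_true h
      subst hb
      have ha' : a = 0 := by omega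
      subst ha'
      exact ⟨false, Or.inr ⟨rfl, rfl⟩, Or.inl rfl⟩
    | false => exact ⟨m, Or.inl rfl, Or.inr rfl⟩
  | false => exact ⟨m, Or.inl rfl, Or.inl rfl⟩

/-- the number is a word of a prefix free set containing the codes -/
def PF (a : ℕ) : Prop := ∀ (b' : MB) (p p' r r' : ℕ), r < 2 ^ p → r' < 2 ^ p' →
  ln a + p = ln (code b') + p' → a * 2 ^ p + r = code b' * 2 ^ p' + r' →
  a = code b' ∧ p = p' ∧ r = r'

theorem pc_big (m : Bool) (a b p : ℕ) : 2 ^ (ln a + ln b + 1 + p) ≤ pc (hd m) a b * 2 ^ p := by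
  have h2 := hd_two m
  rw [pc_eq' (hd m) a b, pow_add _ _ p]
  refine Nat.mul_le_mul_right _ ?_
  rw [pow_succ]
  have hp : 0 < 2 ^ (ln a + ln b) := by positivity
  nlinarith [Nat.zero_le (a * 2 ^ ln b + b)]

theorem PF_zero : PF 0 := by
  intro b' p p' r r' hr hr' hl he
  cases b' with
  | e =>
    rw [code_e] at hl he
    refine ⟨rfl, by omega, by omega⟩
  | n m x y =>
    exfalso
    rw [code_n] at hl he
    have h0 : ln 0 = 1 := by simp [ln_eq]
    rw [h0] at hl
    obtain ⟨m', -, hm⟩ := mkc_cases m (code x) (code y)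
    have key : ∀ a b, mkc m (code x) (code y) = pc (hd m') a b → False := by
      intro a b h
      rw [h] at hl he
      rw [ln_pc] at hl
      have h1 := pc_big m' a b p'
      have h2 : p = ln a + ln b + 1 + p' := by omega
      rw [← h2] at h1
      omega
    rcases hm with h | h
    · exact key _ _ h
    · exact key _ _ h

theorem pc_split {m m' : Bool} {a c a' c' p p' r r' : ℕ} (hr : r < 2 ^ p) (hr' : r' < 2 ^ p')
    (hl : ln (pc (hd m) a c) + p = ln (pc (hd m') a' c') + p')
    (he : pc (hd m) a c * 2 ^ p + r = pc (hd m') a' c' * 2 ^ p' + r') :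
    hd m = hd m' ∧ ln a + (ln c + p) = ln a' + (ln c' + p') ∧
      a * 2 ^ (ln c + p) + (c * 2 ^ p + r) = a' * 2 ^ (ln c' + p') + (c' * 2 ^ p' + r') := by
  rw [ln_pc, ln_pc] at hl
  have e1 : ∀ h a c p r : ℕ, pc h a c * 2 ^ p + r =
      h * 2 ^ (ln a + (ln c + p)) + (a * 2 ^ (ln c + p) + (c * 2 ^ p + r)) := by
    intro h a c p r
    rw [pc_eq]
    simp only [pow_add]
    ring
  have e2 : ∀ a c p r : ℕ, r < 2 ^ p →
      a * 2 ^ (ln c + p) + (c * 2 ^ p + r) < 2 ^ (ln a + (ln c + p)) := by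
    intro a c p r hr
    have h1 := lt_ln a
    have h2 := lt_ln c
    have h3 : c * 2 ^ p + r < 2 ^ (ln c + p) := by
      rw [pow_add]; nlinarith
    rw [pow_add _ (ln a)]
    have h4 := Nat.mul_le_mul_right (2 ^ (ln c + p)) (Nat.succ_le_of_lt h1)
    rw [Nat.succ_mul] at h4
    linarith
  rw [e1, e1] at he
  have hS : ln a + (ln c + p) = ln a' + (ln c' + p') := by omega
  have h4 := e2 a c p r hr
  have h5 := e2 a' c' p' r' hr'
  rw [← hS] at he h5
  have hp : 0 < 2 ^ (ln a + (ln c + p)) := by positivity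
  have h6 : hd m = hd m' := by
    have h7 : (hd m * 2 ^ (ln a + (ln c + p)) + (a * 2 ^ (ln c + p) + (c * 2 ^ p + r))) /
        2 ^ (ln a + (ln c + p)) =
      (hd m' * 2 ^ (ln a + (ln c + p)) + (a' * 2 ^ (ln c' + p') + (c' * 2 ^ p' + r'))) /
        2 ^ (ln a + (ln c + p)) := by rw [he]
    rw [mul_comm (hd m), mul_comm (hd m'), Nat.mul_add_div hp, Nat.mul_add_div hp,
      Nat.div_eq_of_lt h4, Nat.div_eq_of_lt h5] at h7
    simpa using h7
  refine ⟨h6, hS, ?_⟩
  rw [h6] at he
  exact Nat.add_left_cancel he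

theorem lt_step {c p r : ℕ} (hr : r < 2 ^ p) : c * 2 ^ p + r < 2 ^ (ln c + p) := by
  have h2 := lt_ln c
  rw [pow_add]; nlinarith

theorem PF_pc {m : Bool} {a c : ℕ} (ha : PF a) (hc : PF c) : PF (pc (hd m) a c) := by
  intro b' p p' r r' hr hr' hl he
  cases b' with
  | e =>
    exfalso
    rw [code_e] at hl he
    have h0 : ln 0 = 1 := by simp [ln_eq]
    rw [h0, ln_pc] at hl
    have h1 := pc_big m a c p
    have h2 : p' = ln a + ln c + 1 + p := by omega
    rw [← h2] at h1
    omega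
  | n m' x' y' =>
    rw [code_n] at hl he ⊢
    obtain ⟨m'', -, hm⟩ := mkc_cases m' (code x') (code y')
    have key : ∀ u v : MB, mkc m' (code x') (code y') = pc (hd m'') (code u) (code v) →
        pc (hd m) a c = mkc m' (code x') (code y') ∧ p = p' ∧ r = r' := by
      intro u v h
      rw [h] at hl he ⊢
      obtain ⟨h1, h2, h3⟩ := pc_split hr hr' hl he
      obtain ⟨h4, h5, h6⟩ := ha u _ _ _ _ (lt_step hr) (lt_step hr') h2 h3
      obtain ⟨h7, h8, h9⟩ := hc v _ _ _ _ hr hr' h5 h6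
      exact ⟨by rw [h1, h4, h7], h8, h9⟩
    rcases hm with h | h
    · exact key _ _ h
    · exact key _ _ h

theorem PF_code (b : MB) : PF (code b) := by
  induction b with
  | e => exact PF_zero
  | n m x y ihx ihy =>
    rw [code_n]
    obtain ⟨m', -, h | h⟩ := mkc_cases m (code x) (code y)
    · rw [h]; exact PF_pc ihx ihy
    · rw [h]; exact PF_pc ihy ihx

theorem pc_inj {m m' : Bool} {a c : ℕ} {u v : MB} (ha : PF a) (hc : PF c)
    (h : pc (hd m) a c = pc (hd m') (code u) (code v)) : m = m' ∧ a = code u ∧ c = code v := by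
  have hl : ln (pc (hd m) a c) + 0 = ln (pc (hd m') (code u) (code v)) + 0 := by rw [h]
  have he : pc (hd m) a c * 2 ^ 0 + 0 = pc (hd m') (code u) (code v) * 2 ^ 0 + 0 := by rw [h]
  have h0 : (0 : ℕ) < 2 ^ 0 := by simp
  obtain ⟨h1, h2, h3⟩ := pc_split h0 h0 hl he
  obtain ⟨h4, h5, h6⟩ := ha u _ _ _ _ (lt_step h0) (lt_step h0) h2 h3
  obtain ⟨h7, -, -⟩ := hc v _ _ _ _ h0 h0 h5 h6
  exact ⟨hd_inj h1, h4, h7⟩

theorem mkc_ne_zero (m : Bool) (a b : ℕ) : mkc m a b ≠ 0 := by
  have key : ∀ (m : Bool) (a b : ℕ), pc (hd m) a b ≠ 0 := by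
    intro m a b
    have h2 := hd_two m
    rw [pc_eq]
    have : 0 < hd m * 2 ^ ln a := by positivity
    positivity
  obtain ⟨m', -, h | h⟩ := mkc_cases m a b
  · rw [h]; exact key m' _ _
  · rw [h]; exact key m' _ _

theorem code_zero {b : MB} (h : code b = 0) : b = .e := by
  cases b with
  | e => rfl
  | n m x y => exact absurd h (mkc_ne_zero _ _ _)

theorem code_inj : ∀ {b b' : MB}, code b = code b' → IL.BEq b b' := by
  intro b
  induction b with
  | e =>
    intro b' h
    cases b' with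
    | e => exact IL.BEq.refl _
    | n m x y => exact absurd h.symm (mkc_ne_zero _ _ _)
  | n m x y ihx ihy =>
    intro b' h
    cases b' with
    | e => exact absurd h (mkc_ne_zero _ _ _)
    | n m' x' y' =>
      rw [code_n, code_n] at h
      -- it suffices to compare the children
      have fin : ∀ m1 m2 : Bool, (m1 = m ∨ (code x = 0 ∧ code y = 0)) →
          (m2 = m' ∨ (code x' = 0 ∧ code y' = 0)) → m1 = m2 →
          (code x = 0 ∧ code y = 0 ↔ code x' = 0 ∧ code y' = 0) →
          IL.BEq (.n m x' y') (.n m' x' y') := by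
        intro m1 m2 h1 h2 h3 h4
        have lf : code x' = 0 ∧ code y' = 0 → IL.BEq (.n m x' y') (.n m' x' y') := by
          rintro ⟨h5, h6⟩
          rw [code_zero h5, code_zero h6]
          exact IL.BEq.lf m m'
        rcases h1 with h1 | h1
        · rcases h2 with h2 | h2
          · have : m = m' := by rw [← h1, h3, h2]
            rw [this]
            exact IL.BEq.refl _
          · exact lf h2
        · exact lf (h4.mp h1)
      obtain ⟨m1, h5, h1⟩ := mkc_cases m (code x) (code y)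
      obtain ⟨m2, h6, h2⟩ := mkc_cases m' (code x') (code y')
      rcases h1 with h1 | h1 <;> rcases h2 with h2 | h2 <;> rw [h1, h2] at h
      · obtain ⟨e, h3, h4⟩ := pc_inj (PF_code x) (PF_code y) h
        exact (IL.BEq.n m (ihx h3) (ihy h4)).trans (fin m1 m2 h5 h6 e (by rw [h3, h4]))
      · obtain ⟨e, h3, h4⟩ := pc_inj (PF_code x) (PF_code y) h
        exact ((IL.BEq.n m (ihx h3) (ihy h4)).trans (IL.BEq.sw m _ _)).trans
          (fin m1 m2 h5 h6 e (by rw [h3, h4, and_comm]))
      · obtain ⟨e, h3, h4⟩ := pc_inj (PF_code y) (PF_code x) h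
        exact ((IL.BEq.n m (ihx h4) (ihy h3)).trans (IL.BEq.sw m _ _)).trans
          (fin m1 m2 h5 h6 e (by rw [h3, h4, and_comm]))
      · obtain ⟨e, h3, h4⟩ := pc_inj (PF_code y) (PF_code x) h
        exact (IL.BEq.n m (ihx h4) (ihy h3)).trans (fin m1 m2 h5 h6 e (by rw [h3, h4]))

theorem root_lf (m m' : Bool) {x y : MB} (h : x = .e ∨ y = .e) :
    PEq {(.n m x y, .e)} {(.n m' x y, .e)} := by
  have key : ∀ (m m' : Bool) (y : MB), PEq {(.n m y .e, .e)} {(.n m' y .e, .e)} := by
    intro m m' y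
    have h1 : ∀ m : Bool, PEq {(.n m y .e, .e)} {(.n m .e .e, y)} := fun m =>
      (PEq.rho m y .e .e).trans (PEq.sig _ _)
    exact (h1 m).trans ((PEq.lf m m' y).trans (h1 m').symm)
  rcases h with rfl | rfl
  · exact (PEq.sw m .e y .e).trans ((key m m' y).trans (PEq.sw m' y .e .e))
  · exact key m m' x

theorem mkr_eq (m : Bool) (x y : MB) : ∃ m', mkr m (code x) (code y) = code (.n m' x y) ∧
    PEq {(.n m x y, .e)} {(.n m' x y, .e)} := by
  unfold mkr
  cases h : Nat.beq (code x) 0 with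
  | true =>
    have hx := code_zero (Nat.eq_of_beq_eq_true h)
    exact ⟨false, rfl, root_lf m false (Or.inl hx)⟩
  | false =>
    cases h' : Nat.beq (code y) 0 with
    | true =>
      have hy := code_zero (Nat.eq_of_beq_eq_true h')
      exact ⟨false, rfl, root_lf m false (Or.inr hy)⟩
    | false => exact ⟨m, rfl, PEq.refl _⟩

theorem beq_size {b b' : MB} (h : IL.BEq b b') : b.size = b'.size := by
  have := (h .e).size
  simpa [msz_singleton, ksz, MB.size] using this

end Pool.Agent.Helper66.ML
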