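import Pool.Agent.Helper66.IL.Relax

/-!
Tables of bounds for closed marked branches: the data and the checker.

All values are in units `1/48`; the temperature at level `j` is `3 * j`. Marks of leaves are
ignored.
-/

namespace Pool.Agent.Helper66.ML

open Pool.Agent.Helper66.IL

/-- paths from the root -/
inductive Pt
  | o
  | l (p : Pt)
  | r (p : Pt)

/-- replies of Right to a move: none, or a move in one of the components: the neighbour of the
selected vertex, its child, and the path in the branch of this child -/
inductive Rp
  | d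
  | x (s : Bool) (p : Pt)
  | y (s : Bool) (p : Pt)
  | c (s : Bool) (p : Pt)

/-- replies for all vertices of a branch; `e` means no replies -/
inductive RT
  | e
  | n (q : Rp) (l r : RT)

/-- items of a node of the dictionary, by decreasing levels: `r`: by re-rooting,
`c`: by cutting an edge -/
inductive IL
  | z
  | r (j w : Nat) (p : Pt) (t : IL)
  | c (j w : Nat) (p : Pt) (t : IL)

/-- items proved by looking at all moves -/
inductive EL
  | z
  | s (j w : Nat) (a : Pt) (q : RT) (t : EL)

/-- the dictionary of closed branches -/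
inductive VD
  | z
  | s (k : Nat) (b : MB) (i : IL) (l r : VD)

/-- the dictionary of the branches whose moves are checked -/
inductive ED
  | z
  | s (k : Nat) (b : MB) (i : EL) (l r : ED)

/-- bit length, at least one -/
noncomputable def ln (a : Nat) : Nat := Nat.succ (Nat.log2 a)

noncomputable def pc (h a b : Nat) : Nat :=
  Nat.add (Nat.shiftLeft (Nat.add (Nat.shiftLeft h (ln a)) a) (ln b)) b

noncomputable def hd (m : Bool) : Nat := Bool.rec 2 3 m

noncomputable def mkc (m : Bool) (a b : Nat) : Nat :=
  Bool.rec (pc (hd m) a b) (Bool.rec (pc (hd m) b a) (pc 2 0 0) (Nat.beq b 0)) (Nat.ble a b)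

/-- the code of a closed branch; the mark of the root is ignored if it has degree at most one -/
noncomputable def mkr (m : Bool) (a b : Nat) : Nat :=
  Bool.rec (Bool.rec (mkc m a b) (mkc false a b) (Nat.beq b 0)) (mkc false a b) (Nat.beq a 0)

/-- the code of a branch -/
noncomputable def code (b : MB) : Nat :=
  MB.rec (motive := fun _ => Nat) 0 (fun m _ _ cx cy => mkc m cx cy) b

/-- no bound -/
def INF : Nat := 65535

noncomputable def IL.val (j : Nat) (i : IL) : Nat :=
  IL.rec (motive := fun _ => Nat) INF
    (fun j' w _ _ ih => Bool.rec ih w (Nat.ble j' j))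
    (fun j' w _ _ ih => Bool.rec ih w (Nat.ble j' j)) i

noncomputable def EL.val (j : Nat) (i : EL) : Nat :=
  EL.rec (motive := fun _ => Nat) INF
    (fun j' w _ _ _ ih => Bool.rec ih w (Nat.ble j' j)) i

noncomputable def VD.look (j k : Nat) (d : VD) : Nat :=
  VD.rec (motive := fun _ => Nat) INF
    (fun k' _ i _ _ ihl ihr =>
      Bool.rec (Bool.rec ihr ihl (Nat.ble k k')) (IL.val j i) (Nat.beq k k')) d

noncomputable def ED.look (j k : Nat) (d : ED) : Nat :=
  ED.rec (motive := fun _ => Nat) INF
    (fun k' _ i _ _ ihl ihr =>
      Bool.rec (Bool.rec ihr ihl (Nat.ble k k')) (EL.val j i) (Nat.beq k k')) d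

/-- the bound for a closed branch -/
noncomputable def vv (d : VD) (j k : Nat) : Nat := Bool.rec (VD.look j k d) 0 (Nat.beq k 0)

/-- the bound for the closed branches of the children -/
noncomputable def cv (d : VD) (j : Nat) (b : MB) : Nat :=
  MB.rec (motive := fun _ => Nat) 0
    (fun _ x y _ _ => Nat.add (vv d j (code x)) (vv d j (code y))) b

/-- the bound after the selection of the root of the branch `b` with upper branch `c` -/
noncomputable def sv (d : VD) (j : Nat) (b c : MB) : Nat :=
  MB.rec (motive := fun _ => Nat) INF
    (fun _ x y _ _ => Nat.add (Nat.add (cv d j x) (cv d j y)) (cv d j c)) b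

/-- the bound after the selection of the vertex at the end of the path -/
noncomputable def pv (d : VD) (j : Nat) (p : Pt) : MB → MB → Nat :=
  Pt.rec (motive := fun _ => MB → MB → Nat) (fun b c => sv d j b c)
    (fun _ ih b c => MB.rec (motive := fun _ => Nat) INF (fun m x y _ _ => ih x (.n m y c)) b)
    (fun _ ih b c => MB.rec (motive := fun _ => Nat) INF (fun m x y _ _ => ih y (.n m x c)) b) p

/-- the bound for the children of `b` after a move in one of the two closed branches -/
noncomputable def rv (d : VD) (j : Nat) (s : Bool) (p : Pt) (b : MB) : Nat :=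
  MB.rec (motive := fun _ => Nat) INF
    (fun _ x y _ _ => Bool.rec (Nat.add (pv d j p x .e) (vv d j (code y)))
      (Nat.add (vv d j (code x)) (pv d j p y .e)) s) b

/-- at most one of the three branches is present -/
noncomputable def lwc (x y c : MB) : Bool :=
  MB.rec (motive := fun _ => Bool)
    (MB.rec (motive := fun _ => Bool) true
      (fun _ _ _ _ _ => MB.rec (motive := fun _ => Bool) true (fun _ _ _ _ _ => false) c) y)
    (fun _ _ _ _ _ => MB.rec (motive := fun _ => Bool)
      (MB.rec (motive := fun _ => Bool) true (fun _ _ _ _ _ => false) c)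
      (fun _ _ _ _ _ => false) y) x

/-- the check of one vertex -/
noncomputable def ck (d : VD) (j w : Nat) (m : Bool) (x y c : MB) (q : Rp) : Bool :=
  Bool.and
    (Rp.rec (motive := fun _ => Bool)
      (Nat.ble (Nat.add (Nat.add (Nat.add (cv d j x) (cv d j y)) (cv d j c)) 48)
        (Nat.add w (Nat.mul 3 j)))
      (fun s p => Nat.ble (Nat.add (Nat.add (Nat.add (rv d j s p x) (cv d j y)) (cv d j c)) 96) w)
      (fun s p => Nat.ble (Nat.add (Nat.add (Nat.add (cv d j x) (rv d j s p y)) (cv d j c)) 96) w)
      (fun s p => Nat.ble (Nat.add (Nat.add (Nat.add (cv d j x) (cv d j y)) (rv d j s p c)) 96) w)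
      q)
    (Bool.rec
      (Bool.rec true
        (Nat.ble (Nat.add (Nat.add (vv d j (code x)) (vv d j (code y))) (vv d j (code c))) w)
        (lwc x y c))
      (Nat.ble (Nat.add (Nat.add (vv d j (code x)) (vv d j (code y))) (vv d j (code c))) w) m)

/-- the check of all vertices of a branch -/
noncomputable def wk (d : VD) (j w : Nat) (b : MB) : MB → RT → Bool :=
  MB.rec (motive := fun _ => MB → RT → Bool) (fun _ _ => true)
    (fun m x y ihx ihy c t =>
      RT.rec (motive := fun _ => Bool)
        (Bool.and (ck d j w m x y c .d) (Bool.and (ihx (.n m y c) .e) (ihy (.n m x c) .e)))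
        (fun q l r _ _ =>
          Bool.and (ck d j w m x y c q) (Bool.and (ihx (.n m y c) l) (ihy (.n m x c) r))) t) b

/-- the check of the items of an entry -/
noncomputable def ckE (d : VD) (b : MB) (i : EL) : Bool :=
  EL.rec (motive := fun _ => Bool) true
    (fun j w a q _ ih => Bool.and
      (Bool.and (Nat.ble (Nat.add w (Nat.mul 3 j)) 65000)
        (Bool.and (Nat.ble (Nat.add (pv d j a b .e) (Nat.add 48 (Nat.mul 3 j))) w)
          (wk d j w b .e q))) ih) i

/-- the code of the closed branch at the end of the path -/
noncomputable def rr (p : Pt) : MB → MB → Nat :=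
  Pt.rec (motive := fun _ => MB → MB → Nat)
    (fun b c => MB.rec (motive := fun _ => Nat) 1 (fun m x y _ _ =>
      MB.rec (motive := fun _ => Nat) (mkr m (code x) (code c))
        (fun _ _ _ _ _ =>
          MB.rec (motive := fun _ => Nat) (mkr m (code y) (code c))
          (fun _ _ _ _ _ =>
            MB.rec (motive := fun _ => Nat) (mkr m (code x) (code y)) (fun _ _ _ _ _ => 1) c) x)
        y) b)
    (fun _ ih b c => MB.rec (motive := fun _ => Nat) 1 (fun m x y _ _ => ih x (.n m y c)) b)
    (fun _ ih b c => MB.rec (motive := fun _ => Nat) 1 (fun m x y _ _ => ih y (.n m x c)) b) p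

/-- the bound for the marked branch -/
noncomputable def mv (d : VD) (j : Nat) (b : MB) : Nat :=
  MB.rec (motive := fun _ => Nat) INF (fun _ x y _ _ => vv d j (mkr true (code x) (code y))) b

/-- the bound after cutting the edge above the vertex at the end of the path -/
noncomputable def ct (d : VD) (j : Nat) (p : Pt) : MB → MB → Nat :=
  Pt.rec (motive := fun _ => MB → MB → Nat)
    (fun b c => Nat.add (mv d j b) (mv d j c))
    (fun _ ih b c => MB.rec (motive := fun _ => Nat) INF (fun m x y _ _ => ih x (.n m y c)) b)
    (fun _ ih b c => MB.rec (motive := fun _ => Nat) INF (fun m x y _ _ => ih y (.n m x c)) b) p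

/-- the check of the items of a node -/
noncomputable def ckV (d : VD) (g : ED) (b : MB) (i : IL) : Bool :=
  IL.rec (motive := fun _ => Bool) true
    (fun j w p _ ih => Bool.and (Nat.ble (ED.look j (rr p b .e) g) w) ih)
    (fun j w p _ ih => Bool.and (Nat.ble (ct d j p b .e) w) ih) i

/-- all nodes of a dictionary have been checked -/
def VD.ok (d : VD) (g : ED) (t : VD) : Prop :=
  VD.rec (motive := fun _ => Prop) True
    (fun k b i _ _ ihl ihr => (Nat.beq (code b) k = true ∧ ckV d g b i = true) ∧ ihl ∧ ihr) t

def ED.ok (d : VD) (t : ED) : Prop :=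
  ED.rec (motive := fun _ => Prop) True
    (fun k b i _ _ ihl ihr => (Nat.beq (code b) k = true ∧ ckE d b i = true) ∧ ihl ∧ ihr) t

noncomputable def VD.okb (d : VD) (g : ED) (t : VD) : Bool :=
  VD.rec (motive := fun _ => Bool) true
    (fun k b i _ _ ihl ihr => Bool.and (Bool.and (Nat.beq (code b) k) (ckV d g b i))
      (Bool.and ihl ihr)) t

noncomputable def ED.okb (d : VD) (t : ED) : Bool :=
  ED.rec (motive := fun _ => Bool) true
    (fun k b i _ _ ihl ihr => Bool.and (Bool.and (Nat.beq (code b) k) (ckE d b i))
      (Bool.and ihl ihr)) t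

end Pool.Agent.Helper66.ML
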