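import Pool.Agent.Helper66.ML.Code
import Pool.Agent.Helper66.ML.Views

/-!
Soundness of the checker.
-/

namespace Pool.Agent.Helper66.ML

open Pool.Agent.Helper66
open Pool.Agent.Helper44.Idg (Gm Cm)
open Pool.Agent.Helper66.IL

/-- the temperature of a level -/
def tau (j : ℕ) : ℤ := 3 * (j : ℤ)

theorem tau_nonneg (j : ℕ) : 0 ≤ tau j := by unfold tau; positivity

theorem tau_mono {j j' : ℕ} (h : j' ≤ j) : tau j' ≤ tau j := by unfold tau; omega

/-- the dictionary is sound for branches with less than `N` vertices -/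
def Gd (d : VD) (N : ℕ) : Prop := ∀ b : MB, b.size < N → ∀ j : ℕ, vv d j (code b) < INF →
  pg.P 48 (tau j) {(b, .e)} 0 (vv d j (code b) : ℤ)

theorem P_nil (t : ℤ) : pg.P 48 t 0 0 0 := Gm.P.of_term Cm.term_zero Cm.term_zero le_rfl

theorem P_ee (t : ℤ) : pg.P 48 t {(.e, .e)} 0 0 := P_congr PEq.nul.symm (PEq.refl _) (P_nil t)

theorem P_add' {t : ℤ} {X X' : Multiset K} {m m' : ℤ} (h1 : pg.P 48 t X 0 m)
    (h2 : pg.P 48 t X' 0 m') : pg.P 48 t (X + X') 0 (m + m') := by
  have := Cm.P_add h1 h2
  simpa using this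

theorem cv_e (d : VD) (j : ℕ) : cv d j .e = 0 := rfl

theorem cv_n (d : VD) (j : ℕ) (m : Bool) (x y : MB) :
    cv d j (.n m x y) = vv d j (code x) + vv d j (code y) := rfl

theorem chP {d : VD} {N j : ℕ} (h : Gd d N) (x : MB) (hx : x.size ≤ N) (hv : cv d j x < INF) :
    pg.P 48 (tau j) (ch x) 0 (cv d j x : ℤ) := by
  cases x with
  | e => exact P_nil _
  | n m x y =>
    rw [cv_n] at hv ⊢
    simp only [MB.size] at hx
    have h1 := h x (by omega) j (by omega)
    have h2 := h y (by omega) j (by omega)
    rw [ch_n]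
    push_cast
    exact P_add' h1 h2

/-- the value of a view -/
noncomputable def vl (d : VD) (j : ℕ) (v : Bool × MB × MB × MB) : ℕ :=
  cv d j v.2.1 + cv d j v.2.2.1 + cv d j v.2.2.2

theorem kdP {d : VD} {N j : ℕ} (h : Gd d N) {v : Bool × MB × MB × MB}
    (hs : v.2.1.size + v.2.2.1.size + v.2.2.2.size ≤ N) (hv : vl d j v < INF) :
    pg.P 48 (tau j) (kd v) 0 (vl d j v : ℤ) := by
  unfold vl at hv ⊢
  push_cast
  exact P_add' (P_add' (chP h _ (by omega) (by omega)) (chP h _ (by omega) (by omega)))
    (chP h _ (by omega) (by omega))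

theorem INF_pos : 0 < INF := by unfold INF; omega

theorem pv_view {d : VD} {j : ℕ} (p : Pt) : ∀ (b c : MB), pv d j p b c < INF →
    ∃ v ∈ vws c b, pv d j p b c = vl d j v := by
  induction p with
  | o =>
    intro b c h
    cases b with
    | e => exact absurd h (lt_irrefl _)
    | n m x y => exact ⟨(m, x, y, c), mem_vws_self _ _ _ _, rfl⟩
  | l p ih =>
    intro b c h
    cases b with
    | e => exact absurd h (lt_irrefl _)
    | n m x y =>
      obtain ⟨v, hv, h2⟩ := ih x (.n m y c) h
      exact ⟨v, mem_vws_l hv, h2⟩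
  | r p ih =>
    intro b c h
    cases b with
    | e => exact absurd h (lt_irrefl _)
    | n m x y =>
      obtain ⟨v, hv, h2⟩ := ih y (.n m x c) h
      exact ⟨v, mem_vws_r hv, h2⟩

/-- a move in a closed branch with a bound -/
theorem pv_move {d : VD} {N j : ℕ} (h : Gd d N) {p : Pt} {b : MB} (hb : b.size ≤ N)
    (hv : pv d j p b .e < INF) :
    ∃ F, pg.mv {(b, .e)} F ∧ pg.P 48 (tau j) F 0 (pv d j p b .e : ℤ) := by
  obtain ⟨v, h1, h2⟩ := pv_view p b .e hv
  obtain ⟨F, h3, h4⟩ := view_move h1
  have h5 := view_size h1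
  simp only [MB.size] at h5
  refine ⟨F, h3, P_congr h4 (PEq.refl _) ?_⟩
  rw [h2] at hv ⊢
  exact kdP h (by omega) hv

theorem rv_move {d : VD} {N j : ℕ} (h : Gd d N) {s : Bool} {p : Pt} {b : MB} (hb : b.size ≤ N)
    (hv : rv d j s p b < INF) :
    ∃ Z, pg.mv (ch b) Z ∧ pg.P 48 (tau j) Z 0 (rv d j s p b : ℤ) := by
  cases b with
  | e => exact absurd hv (lt_irrefl _)
  | n m x y =>
    simp only [MB.size] at hb
    have e0 : ch (.n m x y) = {(x, .e)} + {(y, .e)} := by rw [ch_n]; rfl
    rw [e0]
    cases s with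
    | false =>
      have e1 : rv d j false p (.n m x y) = pv d j p x .e + vv d j (code y) := rfl
      rw [e1] at hv ⊢
      obtain ⟨F, h1, h2⟩ := pv_move (j := j) h (p := p) (b := x) (by omega) (by omega)
      have h0 : pg.mv ({(x, .e)} + {(y, .e)}) (F + {(y, .e)}) :=
        Cm.mv_add.mpr (Or.inl ⟨F, h1, rfl⟩)
      refine ⟨F + {(y, .e)}, h0, ?_⟩
      push_cast
      exact P_add' h2 (h y (by omega) j (by omega))
    | true =>
      have e1 : rv d j true p (.n m x y) = vv d j (code x) + pv d j p y .e := rfl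
      rw [e1] at hv ⊢
      obtain ⟨F, h1, h2⟩ := pv_move (j := j) h (p := p) (b := y) (by omega) (by omega)
      have h0 : pg.mv ({(x, .e)} + {(y, .e)}) ({(x, .e)} + F) :=
        Cm.mv_add.mpr (Or.inr ⟨F, h1, rfl⟩)
      refine ⟨{(x, .e)} + F, h0, ?_⟩
      push_cast
      exact P_add' (h x (by omega) j (by omega)) h2

theorem and_true {a b : Bool} (h : Bool.and a b = true) : a = true ∧ b = true := by
  cases a <;> cases b <;> simp_all

theorem wk_ck {d : VD} {j w : ℕ} : ∀ (b c : MB) (t : RT), wk d j w b c t = true →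
    ∀ v ∈ vws c b, ∃ q, ck d j w v.1 v.2.1 v.2.2.1 v.2.2.2 q = true := by
  intro b
  induction b with
  | e => intro c t _ v hv; simp [vws] at hv
  | n m x y ihx ihy =>
    intro c t h v hv
    have key : ∀ q l r, Bool.and (ck d j w m x y c q)
        (Bool.and (wk d j w x (.n m y c) l) (wk d j w y (.n m x c) r)) = true →
        ∃ q, ck d j w v.1 v.2.1 v.2.2.1 v.2.2.2 q = true := by
      intro q l r h
      obtain ⟨h1, h2⟩ := and_true h
      obtain ⟨h3, h4⟩ := and_true h2
      rw [vws, List.mem_cons, List.mem_append] at hv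
      rcases hv with rfl | hv | hv
      · exact ⟨q, h1⟩
      · exact ihx _ _ h3 v hv
      · exact ihy _ _ h4 v hv
    cases t with
    | e => exact key .d .e .e h
    | n q l r => exact key q l r h

theorem lwc_eq (x y c : MB) : lwc x y c = lw x.ne y.ne c.ne := by
  cases x <;> cases y <;> cases c <;> rfl

/-- the checked conditions at a vertex -/
theorem ck_sound {d : VD} {N j w : ℕ} (h : Gd d N) {v : Bool × MB × MB × MB}
    (hs : v.2.1.size + v.2.2.1.size + v.2.2.2.size < N) {q : Rp} (hw : w + 3 * j < INF)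
    (hc : ck d j w v.1 v.2.1 v.2.2.1 v.2.2.2 q = true) :
    pg.R 48 (tau j) (kd v) 0 ((w : ℤ) - 48) ∧
      (dv v = true → pg.P 48 (tau j) (dd v) 0 (w : ℤ)) := by
  obtain ⟨m, x, y, c⟩ := v
  simp only at hs hc ⊢
  obtain ⟨h1, h2⟩ := and_true hc
  refine ⟨?_, ?_⟩
  · cases q with
    | d =>
      have h3 := Nat.le_of_ble_eq_true h1
      change cv d j x + cv d j y + cv d j c + 48 ≤ w + 3 * j at h3
      right
      have h4 : vl d j (m, x, y, c) < INF := by
        change cv d j x + cv d j y + cv d j c < INF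
        omega
      refine (kdP h (v := (m, x, y, c)) (by simp only; omega) h4).mono le_rfl ?_
      have h5 : (vl d j (m, x, y, c) : ℤ) + 48 ≤ w + 3 * j := by
        unfold vl; exact_mod_cast h3
      unfold tau
      linarith
    | x s p =>
      have h3 := Nat.le_of_ble_eq_true h1
      change rv d j s p x + cv d j y + cv d j c + 96 ≤ w at h3
      obtain ⟨Z, h4, h5⟩ := rv_move (j := j) h (s := s) (p := p) (b := x) (by omega) (by omega)
      left; left
      refine ⟨Z + ch y + ch c, ?_, ?_⟩
      · exact Cm.mv_add.mpr (Or.inl ⟨_, Cm.mv_add.mpr (Or.inl ⟨Z, h4, rfl⟩), rfl⟩)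
      · refine (P_add' (P_add' h5 (chP h y (by omega) (by omega)))
          (chP h c (by omega) (by omega))).mono le_rfl ?_
        have : (rv d j s p x : ℤ) + cv d j y + cv d j c + 96 ≤ w := by exact_mod_cast h3
        linarith
    | y s p =>
      have h3 := Nat.le_of_ble_eq_true h1
      change cv d j x + rv d j s p y + cv d j c + 96 ≤ w at h3
      obtain ⟨Z, h4, h5⟩ := rv_move (j := j) h (s := s) (p := p) (b := y) (by omega) (by omega)
      left; left
      refine ⟨ch x + Z + ch c, ?_, ?_⟩
      · exact Cm.mv_add.mpr (Or.inl ⟨_, Cm.mv_add.mpr (Or.inr ⟨Z, h4, rfl⟩), rfl⟩)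
      · refine (P_add' (P_add' (chP h x (by omega) (by omega)) h5)
          (chP h c (by omega) (by omega))).mono le_rfl ?_
        have : (cv d j x : ℤ) + rv d j s p y + cv d j c + 96 ≤ w := by exact_mod_cast h3
        linarith
    | c s p =>
      have h3 := Nat.le_of_ble_eq_true h1
      change cv d j x + cv d j y + rv d j s p c + 96 ≤ w at h3
      obtain ⟨Z, h4, h5⟩ := rv_move (j := j) h (s := s) (p := p) (b := c) (by omega) (by omega)
      left; left
      refine ⟨ch x + ch y + Z, ?_, ?_⟩
      · exact Cm.mv_add.mpr (Or.inr ⟨Z, h4, rfl⟩)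
      · refine (P_add' (P_add' (chP h x (by omega) (by omega)) (chP h y (by omega) (by omega)))
          h5).mono le_rfl ?_
        have : (cv d j x : ℤ) + cv d j y + rv d j s p c + 96 ≤ w := by exact_mod_cast h3
        linarith
  · intro hdv
    have hdv' : (m || lwc x y c) = true := by rw [lwc_eq]; exact hdv
    have h3 : vv d j (code x) + vv d j (code y) + vv d j (code c) ≤ w := by
      cases m with
      | true => exact Nat.le_of_ble_eq_true h2
      | false =>
        rw [Bool.false_or] at hdv'
        change Bool.rec (motive := fun _ => Bool) true (Nat.ble (Nat.add (Nat.add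
          (vv d j (code x)) (vv d j (code y))) (vv d j (code c))) w) (lwc x y c) = true at h2
        rw [hdv'] at h2
        exact Nat.le_of_ble_eq_true h2
    have h4 := P_add' (P_add' (h x (by omega) j (by omega)) (h y (by omega) j (by omega)))
      (h c (by omega) j (by omega))
    have h5 : (dd (m, x, y, c) : Multiset K) = {(x, .e)} + {(y, .e)} + {(c, .e)} := by
      simp only [dd, Multiset.insert_eq_cons, ← Multiset.singleton_add]
      abel
    rw [h5]
    refine h4.mono le_rfl ?_
    exact_mod_cast h3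


/-- soundness of an item that looks at all moves -/
theorem item_sound {d : VD} {b : MB} (h : Gd d b.size) {j w : ℕ} {a : Pt} {t : RT}
    (hw : w + 3 * j ≤ 65000) (hA : pv d j a b .e + (48 + 3 * j) ≤ w)
    (hB : wk d j w b .e t = true) : pg.P 48 (tau j) {(b, .e)} 0 (w : ℤ) := by
  have hINF : w + 3 * j < INF := by unfold INF; omega
  have hsz : ∀ v ∈ vws .e b, v.2.1.size + v.2.2.1.size + v.2.2.2.size < b.size := by
    intro v hv
    have := view_size hv
    simp only [MB.size] at this
    omega
  refine Gm.Q.toP (τ := tau j) ⟨tau_nonneg j, ?_, ?_, ?_, ?_⟩ le_rfl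
  · intro _
    obtain ⟨v, h1, h2⟩ := pv_view a b .e (show pv d j a b .e < INF by omega)
    obtain ⟨F, h3, h4⟩ := view_move h1
    left
    refine ⟨F, h3, P_congr h4 (PEq.refl _) ?_⟩
    rw [h2] at hA
    refine (kdP h (v := v) (hsz v h1).le (by omega)).mono le_rfl ?_
    have h5 : (vl d j v : ℤ) + (48 + 3 * j) ≤ w := by exact_mod_cast hA
    unfold tau
    linarith
  · intro X' hX
    obtain ⟨v, h1, h2⟩ := cmv_view (mv_single.mp hX)
    obtain ⟨q, h3⟩ := wk_ck b .e t hB v h1
    have h4 := (ck_sound h (hsz v h1) hINF h3).1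
    rcases h4 with (⟨Z, h5, h6⟩ | ⟨Y', hY', -⟩) | h4
    · obtain ⟨Z', h7, h8⟩ := h2.sim.1.1 Z h5
      exact Or.inl (Or.inl ⟨Z', h7, P_congr h8 (PEq.refl _) h6⟩)
    · exact absurd hY' (Cm.term_zero _)
    · exact Or.inr (P_congr h2 (PEq.refl _) h4)
  · intro Y' hY'
    exact absurd hY' (Cm.term_zero _)
  · intro X' hX
    obtain ⟨v, h1, hm, h2⟩ := cdl_view (dl_single.mp hX)
    obtain ⟨q, h3⟩ := wk_ck b .e t hB v h1
    have h4 := (ck_sound h (hsz v h1) hINF h3).2 hm
    exact ⟨0, Gm.dls.refl _, P_congr h2 (PEq.refl _) h4⟩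

theorem EL_sound {d : VD} {b : MB} (h : Gd d b.size) : ∀ (i : EL), ckE d b i = true →
    ∀ j, EL.val j i < INF → pg.P 48 (tau j) {(b, .e)} 0 (EL.val j i : ℤ) := by
  intro i
  induction i with
  | z => intro _ j h1; exact absurd h1 (lt_irrefl _)
  | s j' w a q t ih =>
    intro hc j h1
    obtain ⟨h2, h3⟩ := and_true hc
    obtain ⟨h4, h5⟩ := and_true h2
    obtain ⟨h6, h7⟩ := and_true h5
    cases hb : Nat.ble j' j with
    | true =>
      have e : EL.val j (.s j' w a q t) = w := by
        show Bool.rec (motive := fun _ => ℕ) (EL.val j t) w (Nat.ble j' j) = w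
        rw [hb]
      rw [e]
      exact (item_sound h (Nat.le_of_ble_eq_true h4) (Nat.le_of_ble_eq_true h6) h7).mono_t
        (tau_mono (Nat.le_of_ble_eq_true hb))
    | false =>
      have e : EL.val j (.s j' w a q t) = EL.val j t := by
        show Bool.rec (motive := fun _ => ℕ) (EL.val j t) w (Nat.ble j' j) = _
        rw [hb]
      rw [e] at h1 ⊢
      exact ih h3 j h1

theorem ED_sound {d : VD} {N : ℕ} (h : Gd d N) : ∀ (g : ED), ED.ok d g → ∀ k j,
    ED.look j k g < INF → ∃ b, code b = k ∧
      (b.size ≤ N → pg.P 48 (tau j) {(b, .e)} 0 (ED.look j k g : ℤ)) := by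
  intro g
  induction g with
  | z => intro _ k j h1; exact absurd h1 (lt_irrefl _)
  | s k' b i l r ihl ihr =>
    rintro ⟨⟨h2, h3⟩, h4, h5⟩ k j h1
    have e : ED.look j k (.s k' b i l r) =
        Bool.rec (Bool.rec (ED.look j k r) (ED.look j k l) (Nat.ble k k')) (EL.val j i)
          (Nat.beq k k') := rfl
    cases hb : Nat.beq k k' with
    | true =>
      rw [hb] at e
      rw [e] at h1 ⊢
      have hk := Nat.eq_of_beq_eq_true hb
      refine ⟨b, (Nat.eq_of_beq_eq_true h2).trans hk.symm, fun hN => ?_⟩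
      exact EL_sound (fun b' hb' => h b' (by omega)) i h3 j h1
    | false =>
      rw [hb] at e
      cases hc : Nat.ble k k' with
      | true =>
        rw [hc] at e
        rw [e] at h1 ⊢
        exact ihl h4 k j h1
      | false =>
        rw [hc] at e
        rw [e] at h1 ⊢
        exact ihr h5 k j h1

theorem one_lt_code (m : Bool) (x y : MB) : 1 < code (.n m x y) := by
  rw [code_n]
  have key : ∀ (m : Bool) (a b : ℕ), 1 < pc (hd m) a b := by
    intro m a b
    have h2 := hd_two m
    rw [pc_eq']
    have : 0 < 2 ^ (ln a + ln b) := by positivity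
    nlinarith [Nat.zero_le (a * 2 ^ ln b + b)]
  obtain ⟨m', -, h | h⟩ := mkc_cases m (code x) (code y)
  · rw [h]; exact key m' _ _
  · rw [h]; exact key m' _ _

theorem code_ne_one (b : MB) : code b ≠ 1 := by
  cases b with
  | e => rw [code_e]; omega
  | n m x y => have := one_lt_code m x y; omega

/-- re-rooting -/
theorem rr_sound (p : Pt) : ∀ (b c : MB), rr p b c ≠ 1 →
    ∃ b2, PEq {(b, c)} {(b2, .e)} ∧ rr p b c = code b2 := by
  induction p with
  | o =>
    intro b c h
    cases b with
    | e => exact absurd rfl h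
    | n m x y =>
      cases y with
      | e =>
        obtain ⟨m', h1, h2⟩ := mkr_eq m x c
        refine ⟨.n m' x c, ?_, h1⟩
        exact ((PEq.sw m x .e c).trans ((PEq.rho m .e x c).trans (PEq.sig _ _))).trans h2
      | n m1 y1 y2 =>
        cases x with
        | e =>
          obtain ⟨m', h1, h2⟩ := mkr_eq m (.n m1 y1 y2) c
          refine ⟨.n m' (.n m1 y1 y2) c, ?_, h1⟩
          exact ((PEq.rho m .e _ c).trans (PEq.sig _ _)).trans h2
        | n m'' x1 x2 =>
          cases c with
          | e =>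
            obtain ⟨m', h1, h2⟩ := mkr_eq m (.n m'' x1 x2) (.n m1 y1 y2)
            exact ⟨_, h2, h1⟩
          | n _ _ _ => exact absurd rfl h
  | l p ih =>
    intro b c h
    cases b with
    | e => exact absurd rfl h
    | n m x y =>
      obtain ⟨b2, h1, h2⟩ := ih x (.n m y c) h
      exact ⟨b2, (PEq.rho m x y c).trans h1, h2⟩
  | r p ih =>
    intro b c h
    cases b with
    | e => exact absurd rfl h
    | n m x y =>
      obtain ⟨b2, h1, h2⟩ := ih y (.n m x c) h
      exact ⟨b2, (PEq.sw m x y c).trans ((PEq.rho m y x c).trans h1), h2⟩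

theorem mv_sound {d : VD} {N j : ℕ} (h : Gd d N) {b : MB} (hb : b.size < N)
    (hv : mv d j b < INF) : b ≠ .e ∧ pg.P 48 (tau j) {(MB.mk b, .e)} 0 (mv d j b : ℤ) := by
  cases b with
  | e => exact absurd hv (lt_irrefl _)
  | n m x y =>
    refine ⟨by simp, ?_⟩
    obtain ⟨m', h1, h2⟩ := mkr_eq true x y
    have e : mv d j (.n m x y) = vv d j (code (.n m' x y)) := by
      rw [← h1]; rfl
    rw [e] at hv ⊢
    exact P_congr h2.symm (PEq.refl _) (h (.n m' x y) (by simpa [MB.size] using hb) j hv)

/-- cutting an edge -/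
theorem ct_sound {d : VD} {j : ℕ} (p : Pt) : ∀ (b c : MB), Gd d (b.size + c.size) →
    ct d j p b c < INF → pg.P 48 (tau j) {(b, c)} 0 (ct d j p b c : ℤ) := by
  induction p with
  | o =>
    intro b c h hv
    have e : ct d j .o b c = mv d j b + mv d j c := rfl
    rw [e] at hv ⊢
    have pos : ∀ b : MB, b ≠ .e → 0 < b.size := by
      intro b hb
      cases b with
      | e => exact absurd rfl hb
      | n m x y => simp [MB.size]
    have hb : mv d j b < INF := by omega
    have hc : mv d j c < INF := by omega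
    have nb : b ≠ .e := by rintro rfl; exact absurd hb (lt_irrefl _)
    have nc : c ≠ .e := by rintro rfl; exact absurd hc (lt_irrefl _)
    have pb := pos b nb
    have pc := pos c nc
    push_cast
    exact P_cut (mv_sound h (by omega) hb).2 (mv_sound h (by omega) hc).2
  | l p ih =>
    intro b c h hv
    cases b with
    | e => exact absurd hv (lt_irrefl _)
    | n m x y =>
      have e : ct d j (.l p) (.n m x y) c = ct d j p x (.n m y c) := rfl
      rw [e] at hv ⊢
      refine P_congr (PEq.rho m x y c).symm (PEq.refl _) (ih x _ ?_ hv)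
      have : x.size + (MB.n m y c).size = (MB.n m x y).size + c.size := by
        simp only [MB.size]; omega
      rw [this]; exact h
  | r p ih =>
    intro b c h hv
    cases b with
    | e => exact absurd hv (lt_irrefl _)
    | n m x y =>
      have e : ct d j (.r p) (.n m x y) c = ct d j p y (.n m x c) := rfl
      rw [e] at hv ⊢
      refine P_congr ((PEq.rho m y x c).symm.trans (PEq.sw m y x c)) (PEq.refl _) (ih y _ ?_ hv)
      have : y.size + (MB.n m x c).size = (MB.n m x y).size + c.size := by
        simp only [MB.size]; omega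
      rw [this]; exact h

theorem IL_sound {d : VD} {g : ED} {b : MB} (h : Gd d b.size) (hg : ED.ok d g) :
    ∀ (i : IL), ckV d g b i = true → ∀ j, IL.val j i < INF →
    pg.P 48 (tau j) {(b, .e)} 0 (IL.val j i : ℤ) := by
  intro i
  induction i with
  | z => intro _ j h1; exact absurd h1 (lt_irrefl _)
  | r j' w p t ih =>
    intro hc j h1
    obtain ⟨h2, h3⟩ := and_true hc
    have h4 := Nat.le_of_ble_eq_true h2
    cases hb : Nat.ble j' j with
    | true =>
      have e : IL.val j (.r j' w p t) = w := by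
        show Bool.rec (motive := fun _ => ℕ) (IL.val j t) w (Nat.ble j' j) = w
        rw [hb]
      rw [e] at h1 ⊢
      obtain ⟨b1, h5, h6⟩ := ED_sound h g hg (rr p b .e) j' (by omega)
      obtain ⟨b2, h7, h8⟩ := rr_sound p b .e (by rw [← h5]; exact code_ne_one b1)
      have h9 := code_inj (h5.trans h8)
      have h10 : PEq {(b1, .e)} {(b, .e)} := (h9 .e).trans h7.symm
      have h11 := h10.size
      simp only [msz_singleton, ksz, MB.size] at h11
      refine (P_congr h10 (PEq.refl _) (h6 (by omega))).mono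
        (tau_mono (Nat.le_of_ble_eq_true hb)) ?_
      exact_mod_cast h4
    | false =>
      have e : IL.val j (.r j' w p t) = IL.val j t := by
        show Bool.rec (motive := fun _ => ℕ) (IL.val j t) w (Nat.ble j' j) = _
        rw [hb]
      rw [e] at h1 ⊢
      exact ih h3 j h1
  | c j' w p t ih =>
    intro hc j h1
    obtain ⟨h2, h3⟩ := and_true hc
    have h4 := Nat.le_of_ble_eq_true h2
    cases hb : Nat.ble j' j with
    | true =>
      have e : IL.val j (.c j' w p t) = w := by
        show Bool.rec (motive := fun _ => ℕ) (IL.val j t) w (Nat.ble j' j) = w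
        rw [hb]
      rw [e] at h1 ⊢
      refine (ct_sound (j := j') p b .e (by simpa [MB.size] using h) (by omega)).mono
        (tau_mono (Nat.le_of_ble_eq_true hb)) ?_
      exact_mod_cast h4
    | false =>
      have e : IL.val j (.c j' w p t) = IL.val j t := by
        show Bool.rec (motive := fun _ => ℕ) (IL.val j t) w (Nat.ble j' j) = _
        rw [hb]
      rw [e] at h1 ⊢
      exact ih h3 j h1

theorem VD_sound {d : VD} {g : ED} {N : ℕ} (h : Gd d N) (hg : ED.ok d g) : ∀ (t : VD),
    VD.ok d g t → ∀ k j, VD.look j k t < INF → ∃ b, code b = k ∧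
      (b.size ≤ N → pg.P 48 (tau j) {(b, .e)} 0 (VD.look j k t : ℤ)) := by
  intro t
  induction t with
  | z => intro _ k j h1; exact absurd h1 (lt_irrefl _)
  | s k' b i l r ihl ihr =>
    rintro ⟨⟨h2, h3⟩, h4, h5⟩ k j h1
    have e : VD.look j k (.s k' b i l r) =
        Bool.rec (Bool.rec (VD.look j k r) (VD.look j k l) (Nat.ble k k')) (IL.val j i)
          (Nat.beq k k') := rfl
    cases hb : Nat.beq k k' with
    | true =>
      rw [hb] at e
      rw [e] at h1 ⊢
      have hk := Nat.eq_of_beq_eq_true hb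
      refine ⟨b, (Nat.eq_of_beq_eq_true h2).trans hk.symm, fun hN => ?_⟩
      exact IL_sound (fun b' hb' => h b' (by omega)) hg i h3 j h1
    | false =>
      rw [hb] at e
      cases hc : Nat.ble k k' with
      | true =>
        rw [hc] at e
        rw [e] at h1 ⊢
        exact ihl h4 k j h1
      | false =>
        rw [hc] at e
        rw [e] at h1 ⊢
        exact ihr h5 k j h1

theorem Gd_all {d : VD} {g : ED} (hd : VD.ok d g d) (hg : ED.ok d g) : ∀ N, Gd d N := by
  intro N
  induction N with
  | zero => intro b hb; exact absurd hb (Nat.not_lt_zero _)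
  | succ N ih =>
    intro b hb j hv
    cases b with
    | e => exact P_ee _
    | n m x y =>
      have h0 : Nat.beq (code (.n m x y)) 0 = false := by
        have := one_lt_code m x y
        cases h : Nat.beq (code (.n m x y)) 0 with
        | false => rfl
        | true => have := Nat.eq_of_beq_eq_true h; omega
      have e : vv d j (code (.n m x y)) = VD.look j (code (.n m x y)) d := by
        show Bool.rec (motive := fun _ => ℕ) (VD.look j (code (.n m x y)) d) 0
          (Nat.beq (code (.n m x y)) 0) = _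
        rw [h0]
      rw [e] at hv ⊢
      obtain ⟨b1, h1, h2⟩ := VD_sound ih hg d hd _ j hv
      have h3 := code_inj h1
      have h4 := beq_size h3
      exact P_congr (h3 .e) (PEq.refl _) (h2 (by omega))

/-- The bounds of a checked dictionary. -/
theorem main {d : VD} {g : ED} (hd : VD.ok d g d) (hg : ED.ok d g) (b : MB) (j w : ℕ)
    (hv : vv d j (code b) ≤ w) (hw : w < INF) : pg.P 48 (tau j) {(b, .e)} 0 (w : ℤ) :=
  (Gd_all hd hg (b.size + 1) b (by omega) j (by omega)).mono le_rfl (by exact_mod_cast hv)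

theorem VD_ok_of_okb {d : VD} {g : ED} {t : VD} (h : VD.okb d g t = true) : VD.ok d g t := by
  induction t with
  | z => trivial
  | s k b i l r ihl ihr =>
    obtain ⟨h1, h2⟩ := and_true h
    obtain ⟨h3, h4⟩ := and_true h2
    exact ⟨and_true h1, ihl h3, ihr h4⟩

theorem ED_ok_of_okb {d : VD} {t : ED} (h : ED.okb d t = true) : ED.ok d t := by
  induction t with
  | z => trivial
  | s k b i l r ihl ihr =>
    obtain ⟨h1, h2⟩ := and_true h
    obtain ⟨h3, h4⟩ := and_true h2
    exact ⟨and_true h1, ihl h3, ihr h4⟩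

end Pool.Agent.Helper66.ML
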